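import Pool.Agent.helper8.GD.Spec
import Pool.Agent.helper22.OC.BB6a
import Pool.Agent.helper22.PD.Mertens2

/-!
# Project GD (MP_ad8ced_nt), module G1: Mertens for the primes `≡ ± 1 mod 8`
-/

set_option autoImplicit false

namespace GD

open Finset ArithmeticFunction
open Pool.Agent.helper7.OC.BB6a (tab f8 chi_f8)

lemma G1_nonprime : ∃ C : ℝ, 0 < C ∧ ∀ N : ℕ, 2 ≤ N →
    ∑ n ∈ Ioc 0 N with ¬ n.Prime, vonMangoldt n / n ≤ C := by
  obtain ⟨C, hC, h⟩ := Pool.Agent.helper22.PD.lower_A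
  refine ⟨C + 6, by linarith, fun N hN => ?_⟩
  have h1 := (Pool.Agent.helper7.OC.BB6a.mertens N (by omega)).2
  have h2 := h N hN
  have h3 := sum_filter_add_sum_filter_not (Ioc 0 N) Nat.Prime (fun n => vonMangoldt n / (n : ℝ))
  have h4 : ∑ n ∈ Ioc 0 N with n.Prime, vonMangoldt n / (n : ℝ)
      = ∑ p ∈ Nat.primesLE N, 1 / (p : ℝ) * Real.log p := by
    have e : (Ioc 0 N).filter Nat.Prime = Nat.primesLE N := by
      ext p
      rw [mem_filter, mem_Ioc, Nat.mem_primesLE]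
      constructor
      · rintro ⟨⟨_, h1⟩, h2⟩; exact ⟨h1, h2⟩
      · rintro ⟨h1, h2⟩; exact ⟨⟨h2.pos, h1⟩, h2⟩
    rw [e]
    refine sum_congr rfl fun p hp => ?_
    rw [vonMangoldt_apply_prime (Nat.mem_primesLE.mp hp).2]
    ring
  linarith

lemma G1_main (N : ℕ) (hN : 2 ≤ N) :
    ∑ n ∈ Ioc 0 N with n.Prime, (1 + tab f8 n) * (vonMangoldt n / n)
      = Real.log 2 / 2 +
        ∑ l ∈ (Icc 1 N).filter (fun l => l.Prime ∧ (l % 8 = 1 ∨ l % 8 = 7)), 2 * Real.log l / l := by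
  have e1 : ∑ n ∈ Ioc 0 N with n.Prime, (1 + tab f8 n) * (vonMangoldt n / n)
      = ∑ n ∈ Ioc 0 N with n.Prime, ((if n = 2 then Real.log 2 / 2 else 0) +
        if (n % 8 = 1 ∨ n % 8 = 7) then 2 * Real.log n / n else 0) := by
    refine sum_congr rfl fun p hp => ?_
    rw [mem_filter, mem_Ioc] at hp
    rw [vonMangoldt_apply_prime hp.2]
    rcases hp.2.eq_two_or_odd with h | h
    · subst h
      simp [tab, f8]
    · have h2 : p ≠ 2 := by rintro rfl; omega
      have h3 : p % 8 = 1 ∨ p % 8 = 3 ∨ p % 8 = 5 ∨ p % 8 = 7 := by omega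
      rcases h3 with h3 | h3 | h3 | h3
      all_goals
        simp [tab, f8, h3, h2]
        try ring
  rw [e1, sum_add_distrib]
  congr 1
  · rw [sum_ite_eq' ((Ioc 0 N).filter Nat.Prime) 2 (fun _ => Real.log 2 / 2), if_pos]
    rw [mem_filter, mem_Ioc]
    exact ⟨⟨by norm_num, hN⟩, Nat.prime_two⟩
  · rw [← sum_filter, filter_filter]
    rfl

theorem G1_thm : G1_stmt := by
  obtain ⟨C, hC, hE⟩ := G1_nonprime
  refine ⟨2 * C + 700, by linarith, fun x hx => ?_⟩
  have hx0 : 0 < x := by linarith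
  have hlx : 0 ≤ Real.log x := Real.log_nonneg hx
  have hf1 := Nat.floor_le hx0.le
  have hf2 := Nat.lt_floor_add_one x
  set N := ⌊x⌋₊ with hN
  have hN1 : 1 ≤ N := (Nat.one_le_floor_iff x).mpr hx
  have hN0 : (0 : ℝ) < N := by exact_mod_cast hN1
  -- log x versus log N
  have hl1 : Real.log N ≤ Real.log x := Real.log_le_log hN0 hf1
  have hl2 : Real.log x ≤ Real.log N + 1 := by
    have h1 : x ≤ 2 * N := by
      have : (1 : ℝ) ≤ N := by exact_mod_cast hN1
      linarith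
    have h2 := Real.log_le_log hx0 h1
    rw [Real.log_mul (by norm_num) hN0.ne'] at h2
    have h3 : Real.log 2 ≤ 1 := by
      have := Real.log_le_sub_one_of_pos (x := 2) (by norm_num); linarith
    linarith
  rcases Nat.lt_or_ge N 2 with h2 | h2
  · have h3 : N = 1 := by omega
    rw [h3] at hl1 hl2 ⊢
    have e : (Icc 1 1).filter (fun l : ℕ => l.Prime ∧ (l % 8 = 1 ∨ l % 8 = 7)) = ∅ := by
      decide
    rw [e, sum_empty, zero_sub, abs_neg, abs_of_nonneg hlx]
    simp only [Nat.cast_one, Real.log_one] at hl2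
    linarith
  · have a1 := Pool.Agent.helper7.OC.BB6a.mertens N hN1
    have a2 := abs_le.1 (chi_f8.mertens N)
    have a3 := sum_filter_add_sum_filter_not (Ioc 0 N) Nat.Prime
      (fun n => (1 + tab f8 n) * (vonMangoldt n / (n : ℝ)))
    rw [G1_main N h2] at a3
    have a4 : ∑ n ∈ Ioc 0 N, (1 + tab f8 n) * (vonMangoldt n / (n : ℝ))
        = ∑ n ∈ Ioc 0 N, vonMangoldt n / (n : ℝ) + ∑ n ∈ Ioc 0 N, tab f8 n * (vonMangoldt n / (n : ℝ)) := by
      rw [← sum_add_distrib]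
      exact sum_congr rfl fun n _ => by ring
    rw [a4] at a3
    have a5 : |∑ n ∈ Ioc 0 N with ¬ n.Prime, (1 + tab f8 n) * (vonMangoldt n / (n : ℝ))| ≤ 2 * C := by
      refine (abs_sum_le_sum_abs _ _).trans ?_
      refine le_trans (sum_le_sum fun n _ => ?_) (show ∑ n ∈ Ioc 0 N with ¬ n.Prime,
        2 * (vonMangoldt n / (n : ℝ)) ≤ 2 * C by rw [← mul_sum]; linarith [hE N h2])
      have hΛ : 0 ≤ vonMangoldt n := vonMangoldt_nonneg
      rw [abs_mul, abs_of_nonneg (by positivity : 0 ≤ vonMangoldt n / (n : ℝ))]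
      have h1 := chi_f8.le n
      have h3 : |1 + tab f8 n| ≤ 2 := by
        refine (abs_add_le _ _).trans ?_
        rw [abs_one]; linarith
      gcongr
    have a6 := abs_le.1 a5
    have hl20 : 0 ≤ Real.log 2 := Real.log_nonneg (by norm_num)
    have h3 : Real.log 2 ≤ 1 := by
      have := Real.log_le_sub_one_of_pos (x := 2) (by norm_num); linarith
    rw [abs_le]
    constructor <;> linarith [a1.1, a1.2, a2.1, a2.2, a6.1, a6.2]

end GD
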