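import Pool.Agent.helper97.GD.Spec

set_option autoImplicit false

open Filter FirstOrder FirstOrder.Language

namespace Pool.Agent.GD

open Pool.Agent.UnivT

theorem GBS_val (s : ℕ → Bool) (L : ℕ) : 0 ≤ val s L ∧ val s L ≤ 2 ^ L - 1 := by
  unfold val
  induction L with
  | zero => simp
  | succ L ih =>
    rw [Finset.sum_range_succ, pow_succ]
    have h1 : (0 : ℤ) < 2 ^ L := by positivity
    split_ifs
    · constructor <;> linarith [ih.1, ih.2]
    · constructor <;> linarith [ih.1, ih.2]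

theorem GBS_div (m : ℤ) (L : ℕ) (h : |m| < 2 ^ L) : m / 2 ^ L = 0 ∨ m / 2 ^ L = -1 := by
  have h1 : (0 : ℤ) < 2 ^ L := by positivity
  obtain ⟨h2, h3⟩ := abs_lt.1 h
  have h4 : -1 ≤ m / 2 ^ L := (Int.le_ediv_iff_mul_le h1).2 (by linarith)
  have h5 : m / 2 ^ L < 1 := (Int.ediv_lt_iff_lt_mul h1).2 (by linarith)
  omega

theorem GBS_bit (β : Bool → Bool → Bool) (m n : ℤ) (hm : m = 0 ∨ m = -1) (hn : n = 0 ∨ n = -1) :
    Int.bitwise β m n = 0 ∨ Int.bitwise β m n = -1 := by
  have h0 : ∀ f : Bool → Bool → Bool, Int.natBitwise f 0 0 = 0 ∨ Int.natBitwise f 0 0 = -1 := by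
    intro f
    unfold Int.natBitwise
    cases f false false
    · left
      simp
    · right
      simp
  rcases hm with rfl | rfl <;> rcases hn with rfl | rfl
  · exact h0 β
  · have h1 : Int.bitwise β 0 (-1) = Int.natBitwise (fun x y => β x (!y)) 0 0 := rfl
    rw [h1]
    exact h0 _
  · have h1 : Int.bitwise β (-1) 0 = Int.natBitwise (fun x y => β (!x) y) 0 0 := rfl
    rw [h1]
    exact h0 _
  · have h1 : Int.bitwise β (-1) (-1) = Int.natBitwise (fun x y => β (!x) (!y)) 0 0 := rfl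
    rw [h1]
    exact h0 _

theorem GBS (hBWS : BWS_stmt) : GBS_stmt := by
  intro β m n
  let k : ℕ := max m.natAbs n.natAbs
  have hk : k < 2 ^ k.size := Nat.lt_size_self k
  have hk2 : 2 ^ k.size ≤ 2 * k + 1 := by
    rcases Nat.eq_zero_or_pos k with h | h
    · rw [h]
      simp
    · have h1 : 0 < k.size := Nat.size_pos.2 h
      obtain ⟨s, hs⟩ := Nat.exists_eq_succ_of_ne_zero h1.ne'
      have h2 : 2 ^ s ≤ k := Nat.lt_size.1 (by rw [hs]; exact Nat.lt_succ_self s)
      rw [hs, Nat.pow_succ]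
      omega
  have hm : |m| < 2 ^ k.size := by
    have h1 : m.natAbs < 2 ^ k.size := lt_of_le_of_lt (le_max_left _ _) hk
    rw [Int.abs_eq_natAbs]
    exact_mod_cast h1
  have hn : |n| < 2 ^ k.size := by
    have h1 : n.natAbs < 2 ^ k.size := lt_of_le_of_lt (le_max_right _ _) hk
    rw [Int.abs_eq_natAbs]
    exact_mod_cast h1
  have hk3 : (2 : ℤ) ^ k.size ≤ 2 * (|m| + |n|) + 1 := by
    have h1 : (k : ℤ) ≤ |m| + |n| := by
      rw [Int.abs_eq_natAbs, Int.abs_eq_natAbs]
      have h2 : k ≤ m.natAbs + n.natAbs := max_le (Nat.le_add_right _ _) (Nat.le_add_left _ _)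
      exact_mod_cast h2
    have h2 : ((2 ^ k.size : ℕ) : ℤ) ≤ ((2 * k + 1 : ℕ) : ℤ) := by exact_mod_cast hk2
    push_cast at h2
    linarith
  rw [hBWS β m n k.size]
  obtain ⟨h1, h2⟩ := GBS_val (fun i => β (m.testBit i) (n.testBit i)) k.size
  have hp : (0 : ℤ) < 2 ^ k.size := by positivity
  rcases GBS_bit β _ _ (GBS_div m k.size hm) (GBS_div n k.size hn) with h | h
  · rw [h, abs_le]
    constructor <;> linarith
  · rw [h, abs_le]
    constructor <;> linarith

end Pool.Agent.GD
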